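import Pool.Agent.W997.DB.Stmt

/-!
# Small time, small space, and both, for programs which read few variables

We evaluate the unrolled De Bruijn graph of height `h = q * (2 * p + 1)`: the nodes of height
`j ≤ h` are the pairs of a word of length `2 * p + 1` and a letter, the children of a node are the
nodes of the next smaller height whose words arise by shifting, and every inner node has a table
indexed by the tuples of values of its children.  The number of variables is `N`, and
`N ^ c ≤ 2 ^ p`, so that `p` is at least a constant times `log N`.

* There are Boolean circuits of polynomial size and depth `O(q log² N)`.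
* There are deterministic branching programs of log size `O(q log² N)` which read `N ^ δ` different
  variables, and stop after `N ^ q` steps.
* There are deterministic branching programs of log size `N ^ δ` which stop after `N ^ δ` steps.
* But if the log size is at most `N ^ c`, then a program which reads less than `N ^ (1 - δ)`
  different variables on average needs `N ^ (c * q)` steps on average, even if it is right only on
  slightly more than half of the inputs.

With `q = log N` the functions are in (nonuniform) `NC`, they can be computed in polylogarithmic
space and they can be computed in polynomial time, but not simultaneously in polynomial time and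
in polylogarithmic space (not even in space `N ^ c`) by programs which read `N ^ (1 - δ)`
different variables.

Proof idea.  If only few entries are read at every node, then a state of the program determines the
values of the nodes which are alive, up to few possibilities; so there are never many groups of
siblings which are almost completely alive.  In an interval of time in which many groups of one
height are demanded, therefore almost all groups which are `2 * p + 1` levels below have to be
demanded; this interval is cut into `2 ^ p` pieces of the same kind, and so on.
-/

set_option autoImplicit false

namespace Pool.Agent.Results.MP_1a6d78_lc.TimeSpaceFewReads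

open Finset
open Pool.Agent.W997.DB

/-- For every `δ > 0` there are `D`, `ℓ₁`, `c > 0` and `p₀` such that for all `p ≥ p₀` and all
`2 ≤ q ≤ 2 ^ p`, with `h = q * (2 * p + 1)`, `ℓ = ℓ₁ * p`, alphabet `Fin (2 ^ ℓ)` and `N` the number
of variables of the unrolled De Bruijn graph of height `h` over words of length `2 * p + 1` (then
`N ^ c ≤ 2 ^ p`), the lowest bit of the value of every root

* is computed by Boolean circuits of size at most `N ^ 2` and depth at most `5 * q * log² N`,
* is computed by a deterministic branching program of log size at most `2 * q * log² N` which, on
  every input, stops after at most `N ^ q` steps and reads at most `N ^ δ` different variables,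
* is computed by a deterministic branching program of log size at most `N ^ δ` in time `N ^ δ`,
* but every deterministic branching program of log size at most `N ^ c` which halts on all
  inputs, with the right answer on a fraction of at least `1 / 2 + N ^ (-c)` of them, reads on
  average at least `N ^ (1 - δ)` different variables or makes on average at least `N ^ (c * q)`
  steps. -/
theorem result : ∀ δ : ℝ, 0 < δ → ∃ D ℓ₁ : ℕ, 2 ≤ D ∧ 1 ≤ ℓ₁ ∧ ∃ c : ℝ, 0 < c ∧ ∃ p₀ : ℕ,
    ∀ p : ℕ, p₀ ≤ p → ∀ q : ℕ, 2 ≤ q → q ≤ 2 ^ p → ∀ h : ℕ, h = q * (2 * p + 1) →
    ∀ ℓ : ℕ, ℓ = ℓ₁ * p → ∀ N : ℝ,
    N = Fintype.card (Var D (2 * p) h (2 ^ ℓ)) → N ^ c ≤ 2 ^ p ∧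
      ∀ (g : Word D (2 * p)) (i : Fin D) (f : Input D (2 * p) h (2 ^ ℓ) → Bool),
      f = rootBit g i →
      ByCircuit f (N ^ 2) (5 * q * Real.log N ^ 2) ∧
      ByProgram f (2 * q * Real.log N ^ 2) (N ^ q) (N ^ δ) ∧
      ByProgram f (N ^ δ) (N ^ δ) (N ^ δ) ∧
      HardReadsOrTime f (N ^ c) (N ^ (-c)) (N ^ (1 - δ)) (N ^ (c * q)) :=
  fun δ hδ => tradeoff_stmt δ hδ

end Pool.Agent.Results.MP_1a6d78_lc.TimeSpaceFewReads
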